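import Mathlib
import Pool.Agent.Helper12_WBX.Stmts

set_option autoImplicit false

/-! Squad WBX: modules UNV and UNR. -/

namespace Pool.Agent.WBX.H39

open Pool.Agent.Helper78_ACIT Pool.Agent.WBX

section values

variable {A : Type} [CommRing A] (x : ℕ → A)

/-- one step of the computation of the values -/
def step (vals : List A) (g : Gate) : List A := vals ++ [g.value x vals]

theorem values_eq (C : List Gate) : values x C = C.foldl (step x) [] := rfl

theorem prefix_foldl (C : List Gate) (acc : List A) : acc <+: C.foldl (step x) acc := by
  induction C generalizing acc with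
  | nil => exact List.prefix_rfl
  | cons g C ih =>
    rw [List.foldl_cons]
    exact (List.prefix_append acc _).trans (ih _)

theorem length_foldl (C : List Gate) (acc : List A) :
    (C.foldl (step x) acc).length = acc.length + C.length := by
  induction C generalizing acc with
  | nil => simp
  | cons g C ih =>
    rw [List.foldl_cons, ih, step]
    simp only [List.length_append, List.length_cons, List.length_nil]
    omega

theorem getD_of_prefix {l₁ l₂ : List A} (h : l₁ <+: l₂) (i : ℕ) (hi : i < l₁.length) :
    l₂.getD i 0 = l₁.getD i 0 := by
  obtain ⟨t, rfl⟩ := h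
  rw [List.getD_eq_getElem?_getD, List.getD_eq_getElem?_getD, List.getElem?_append_left hi]

theorem value_congr (i : ℕ) (g : Gate) (hg : g.RefsBelow i) (v w : List A)
    (h : ∀ a, a < i → v.getD a 0 = w.getD a 0) : g.value x v = g.value x w := by
  cases g <;> simp only [Gate.value]
  all_goals rw [h _ hg.1, h _ hg.2]

/-- the value of a gate in terms of the values of the earlier ones -/
theorem values_getD (G : List Gate) (hG : ∀ (i : ℕ) (g : Gate), G[i]? = some g → g.RefsBelow i)
    (j : ℕ) (hj : j < G.length) : (values x G).getD j 0 = G[j].value x (values x G) := by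
  have h0 : G = G.take j ++ G[j] :: G.drop (j + 1) := by
    rw [List.cons_getElem_drop_succ, List.take_append_drop]
  have h1 : values x G = (G.drop (j + 1)).foldl (step x)
      (step x (values x (G.take j)) G[j]) := by
    conv_lhs => rw [h0]
    rw [values_eq, List.foldl_append, List.foldl_cons, ← values_eq]
  have hlen : (values x (G.take j)).length = j := by
    rw [values_eq, length_foldl, List.length_nil, List.length_take]
    omega
  have h2 : step x (values x (G.take j)) G[j] <+: values x G := by
    rw [h1]
    exact prefix_foldl x _ _
  have h3 : values x (G.take j) <+: values x G := by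
    refine List.IsPrefix.trans ?_ h2
    exact List.prefix_append _ _
  rw [getD_of_prefix h2 j (by
    rw [step, List.length_append, hlen, List.length_cons, List.length_nil]; omega)]
  have h4 : (step x (values x (G.take j)) G[j]).getD j 0 =
      G[j].value x (values x (G.take j)) := by
    rw [step, List.getD_eq_getElem?_getD, List.getElem?_append_right (by omega), hlen]
    simp
  rw [h4]
  refine value_congr x j _ (hG j _ (List.getElem?_eq_getElem hj)) _ _ fun a ha => ?_
  rw [getD_of_prefix h3 a (by omega)]

end values

/-- the fuel does not matter -/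
theorem unf_fuel (G : List Gate) (hG : ∀ (i : ℕ) (g : Gate), G[i]? = some g → g.RefsBelow i)
    (j : ℕ) : ∀ m, j < m → unf G m j = unf G (j + 1) j := by
  induction j using Nat.strong_induction_on with
  | _ j ih =>
    intro m hm
    obtain ⟨n, rfl⟩ : ∃ n, m = n + 1 := ⟨m - 1, by omega⟩
    have key : ∀ a, a < j → unf G n a = unf G j a := fun a ha => by
      rw [ih a ha n (by omega), ih a ha j ha]
    cases hg : G[j]? with
    | none => simp only [unf, hg]
    | some g =>
      have hr := hG j g hg
      cases g with
      | zero => simp only [unf, hg]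
      | one => simp only [unf, hg]
      | var v => simp only [unf, hg]
      | add a b => simp only [unf, hg]; rw [key a hr.1, key b hr.2]
      | sub a b => simp only [unf, hg]; rw [key a hr.1, key b hr.2]
      | mul a b => simp only [unf, hg]; rw [key a hr.1, key b hr.2]

/-- UNV -/
theorem unv : UnvStmt := by
  intro A _ x G hG j
  induction j using Nat.strong_induction_on with
  | _ j ih =>
    intro hj
    rw [values_getD x G hG j hj]
    have hg : G[j]? = some G[j] := List.getElem?_eq_getElem hj
    have hr := hG j _ hg
    have key : ∀ a, a < j → (values x G).getD a 0 = (unf G j a).eval x := fun a ha => by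
      rw [ih a ha (by omega), unf_fuel G hG a j ha]
    generalize G[j] = g at hg hr
    cases g with
    | zero => simp only [unf, hg]; rfl
    | one => simp only [unf, hg]; rfl
    | var v => simp only [unf, hg]; rfl
    | add a b =>
      simp only [unf, hg, Gate.value, Fm.eval]
      rw [key a hr.1, key b hr.2]
    | sub a b =>
      simp only [unf, hg, Gate.value, Fm.eval]
      rw [key a hr.1, key b hr.2]
    | mul a b =>
      simp only [unf, hg, Gate.value, Fm.eval]
      rw [key a hr.1, key b hr.2]

section unr

variable (G : List Gate) (hG : ∀ (i : ℕ) (g : Gate), G[i]? = some g → g.RefsBelow i)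
  (hF : FanOutOne G) (w : Fm → ℕ) (c : Gate → ℕ)

/-- the gates with index `< m` which are not used by a gate with index `< m` -/
def unused (m : ℕ) : Finset ℕ := (Finset.range m).filter (fun j => j ∉ (G.take m).flatMap refs)

include hG in
theorem refs_lt (i : ℕ) (g : Gate) (hg : G[i]? = some g) (a : ℕ) (ha : a ∈ refs g) : a < i := by
  have h := hG i g hg
  cases g <;> simp only [refs, List.mem_cons, List.not_mem_nil, or_false] at ha
  all_goals rcases ha with rfl | rfl
  all_goals first | exact h.1 | exact h.2

include hG in
theorem notMem_used (m : ℕ) (a : ℕ) (ha : m ≤ a + 1) : a ∉ (G.take m).flatMap refs := by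
  intro h
  rw [List.mem_flatMap] at h
  obtain ⟨g, hg, hag⟩ := h
  rw [List.mem_take_iff_getElem] at hg
  obtain ⟨i, hi, hgi⟩ := hg
  have h1 := refs_lt G hG i g (by rw [← hgi]; exact List.getElem?_eq_getElem _) a hag
  omega

include hG in
theorem unused_succ (m : ℕ) (hm : m < G.length) :
    unused G (m + 1) = insert m ((unused G m).filter (fun j => j ∉ refs G[m])) := by
  have ht : G.take (m + 1) = G.take m ++ [G[m]] := by
    rw [List.take_succ_eq_append_getElem hm]
  ext j
  simp only [unused, Finset.mem_insert, Finset.mem_filter, Finset.mem_range]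
  constructor
  · rintro ⟨h1, h2⟩
    by_cases hj : j = m
    · exact Or.inl hj
    · right
      rw [ht, List.flatMap_append, List.mem_append, not_or] at h2
      refine ⟨⟨by omega, h2.1⟩, ?_⟩
      simpa using h2.2
  · rintro (rfl | ⟨⟨h1, h2⟩, h3⟩)
    · exact ⟨by omega, notMem_used G hG _ _ le_rfl⟩
    · refine ⟨by omega, ?_⟩
      rw [ht, List.flatMap_append, List.mem_append, not_or]
      exact ⟨h2, by simpa using h3⟩

include hF in
/-- the two gates used by gate `m` are different, and not used before -/
theorem two_refs (m : ℕ) (hm : m < G.length) (a b : ℕ) (h : refs G[m] = [a, b])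
    (ha : a < m) (hb : b < m) : a ≠ b ∧ a ∈ unused G m ∧ b ∈ unused G m := by
  have h0 : G = G.take m ++ G[m] :: G.drop (m + 1) := by
    rw [List.cons_getElem_drop_succ, List.take_append_drop]
  have hc : ∀ j, ((G.take m).flatMap refs).count j + [a, b].count j ≤ 1 := by
    intro j
    have h1 := hF j
    rw [h0, List.flatMap_append, List.count_append, List.flatMap_cons, List.count_append, h] at h1
    omega
  have ha1 := hc a
  have hb1 := hc b
  have h2 : a ≠ b := by
    intro hab
    subst hab
    simp at ha1
  have e1 : [a, b].count a = 1 := by
    rw [List.count_cons_self, List.count_cons_of_ne (fun h => h2 h.symm)]; simp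
  have e2 : [a, b].count b = 1 := by
    rw [List.count_cons_of_ne h2, List.count_cons_self]; simp
  refine ⟨h2, ?_, ?_⟩
  · rw [unused, Finset.mem_filter, Finset.mem_range]
    refine ⟨ha, ?_⟩
    rw [← List.count_pos_iff]
    omega
  · rw [unused, Finset.mem_filter, Finset.mem_range]
    refine ⟨hb, ?_⟩
    rw [← List.count_pos_iff]
    omega

include hG hF in
theorem sum_le (h0 : w .zero ≤ c .zero) (h1 : w .one ≤ c .one) (hv : ∀ v, w (.var v) ≤ c (.var v))
    (ha : ∀ f g, w (.add f g) = w f + w g) (hs : ∀ f g, w (.sub f g) = w f + w g)
    (hmu : ∀ f g, w (.mul f g) = w f + w g) (m : ℕ) (hm : m ≤ G.length) :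
    ∑ j ∈ unused G m, w (unf G (j + 1) j) ≤ ((G.take m).map c).sum := by
  induction m with
  | zero => simp [unused]
  | succ m ih =>
    have hm' : m < G.length := by omega
    have ih := ih (by omega)
    have ht : G.take (m + 1) = G.take m ++ [G[m]] := by
      rw [List.take_succ_eq_append_getElem hm']
    have hnot : m ∉ (unused G m).filter (fun j => j ∉ refs G[m]) := by
      simp [unused]
    rw [unused_succ G hG m hm', Finset.sum_insert hnot, ht, List.map_append, List.sum_append,
      List.map_singleton, List.sum_singleton]
    have hg : G[m]? = some G[m] := List.getElem?_eq_getElem hm'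
    have hr := hG m _ hg
    have leaf : refs G[m] = [] → w (unf G (m + 1) m) ≤ c G[m] →
        w (unf G (m + 1) m) + ∑ j ∈ (unused G m).filter (fun j => j ∉ refs G[m]),
          w (unf G (j + 1) j) ≤ ((G.take m).map c).sum + c G[m] := by
      intro e1 e2
      rw [e1]
      simp only [List.not_mem_nil, not_false_eq_true, Finset.filter_true]
      omega
    have node : ∀ a b, refs G[m] = [a, b] → a < m → b < m →
        w (unf G (m + 1) m) = w (unf G m a) + w (unf G m b) →
        w (unf G (m + 1) m) + ∑ j ∈ (unused G m).filter (fun j => j ∉ refs G[m]),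
          w (unf G (j + 1) j) ≤ ((G.take m).map c).sum + c G[m] := by
      intro a b e1 hlt1 hlt2 e2
      obtain ⟨hab, hau, hbu⟩ := two_refs G hF m hm' a b e1 hlt1 hlt2
      have e3 : (unused G m).filter (fun j => j ∉ refs G[m]) =
          ((unused G m).erase a).erase b := by
        ext j
        rw [e1]
        simp only [Finset.mem_filter, Finset.mem_erase, List.mem_cons, List.not_mem_nil,
          or_false, not_or]
        tauto
      rw [e3, e2, unf_fuel G hG a m hlt1, unf_fuel G hG b m hlt2]
      have e4 := Finset.add_sum_erase (unused G m) (fun j => w (unf G (j + 1) j)) hau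
      have e5 := Finset.add_sum_erase ((unused G m).erase a) (fun j => w (unf G (j + 1) j))
        (Finset.mem_erase.2 ⟨fun h => hab h.symm, hbu⟩)
      omega
    generalize G[m] = g at hg hr leaf node ⊢
    cases g with
    | zero => exact leaf rfl (by simp only [unf, hg]; exact h0)
    | one => exact leaf rfl (by simp only [unf, hg]; exact h1)
    | var v => exact leaf rfl (by simp only [unf, hg]; exact hv v)
    | add a b => exact node a b rfl hr.1 hr.2 (by simp only [unf, hg]; exact ha _ _)
    | sub a b => exact node a b rfl hr.1 hr.2 (by simp only [unf, hg]; exact hs _ _)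
    | mul a b => exact node a b rfl hr.1 hr.2 (by simp only [unf, hg]; exact hmu _ _)

include hG hF in
theorem weight_le (h0 : w .zero ≤ c .zero) (h1 : w .one ≤ c .one)
    (hv : ∀ v, w (.var v) ≤ c (.var v))
    (ha : ∀ f g, w (.add f g) = w f + w g) (hs : ∀ f g, w (.sub f g) = w f + w g)
    (hmu : ∀ f g, w (.mul f g) = w f + w g) (j : ℕ) (hj : j < G.length) :
    w (unf G (j + 1) j) ≤ (G.map c).sum := by
  have h2 := sum_le G hG hF w c h0 h1 hv ha hs hmu (j + 1) (by omega)
  have h3 : j ∈ unused G (j + 1) := by
    rw [unused, Finset.mem_filter, Finset.mem_range]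
    exact ⟨by omega, notMem_used G hG _ _ le_rfl⟩
  have h4 := Finset.single_le_sum (f := fun j => w (unf G (j + 1) j))
    (fun i _ => Nat.zero_le _) h3
  have h5 : ((G.take (j + 1)).map c).sum ≤ (G.map c).sum := by
    conv_rhs => rw [← List.take_append_drop (j + 1) G]
    rw [List.map_append, List.sum_append]
    omega
  omega

end unr

/-- UNR -/
theorem unr : UnrStmt := by
  intro G hG hF j hj
  constructor
  · intro v
    have h := weight_le G hG hF (Fm.reads v) (fun g => if g = .var v then 1 else 0)
      (by simp [Fm.reads]) (by simp [Fm.reads]) (by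
        intro u
        simp only [Fm.reads, Gate.var.injEq]
        exact le_rfl) (fun _ _ => rfl) (fun _ _ => rfl) (fun _ _ => rfl) j hj
    refine h.trans (le_of_eq ?_)
    clear h hG hF hj
    induction G with
    | nil => rfl
    | cons g G ih =>
      rw [List.map_cons, List.sum_cons, ih, List.count_cons]
      by_cases hg : g = .var v
      · subst hg
        simp
        omega
      · simp [hg]
  · have h := weight_le G hG hF Fm.leaves (fun _ => 1) le_rfl le_rfl (fun _ => le_rfl)
      (fun _ _ => rfl) (fun _ _ => rfl) (fun _ _ => rfl) j hj
    refine h.trans (le_of_eq ?_)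
    simp

end Pool.Agent.WBX.H39
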